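import Pool.Agent.MP07f90a.Basic

/-!
# `m(n,k)` is of order `C(n,k)` up to a polynomial in `k`

`C(n,k) / (8 k^3) ≤ m(n,k)` for all `n` and all `k ≥ 2` (the known lower bound loses a factor
`2^(k-1)`), and `k^2 m(n,k) ≤ n C(n,k-1)`.

Construction. Colour the points at random by `ZMod p`, `p` an odd prime in `(k^2, 2k^2]`.  Fix
`a, b`.  Take all `k`-sets `E` with distinct colours that have a point `x` such that the colours of
`E - x` have sum `a` and sum of squares `b`.  If two `(k-1)`-sets with distinct colours and the same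
sums have at most `k+1` points in their union then they have the same colours; this makes the
family admissible.
-/

open Finset

namespace Pool.Agent.Results.MP_07f90a_co.AllK

open Pool.Agent.MP07f90a

theorem inj_count (n p : ℕ) [NeZero p] (E : Finset (Fin n)) :
    (univ.filter (fun c : Fin n → ZMod p => Set.InjOn c (E : Set (Fin n)))).card * p ^ E.card
      = p.descFactorial E.card * p ^ n := by
  classical
  have h := restrict_count (α := Fin n) (β := ZMod p) (ι := {x // x ∈ E}) (fun x => x.1)
    Subtype.val_injective (fun g => Function.Injective g)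
  have e1 : (univ.filter (fun c : Fin n → ZMod p => Set.InjOn c (E : Set (Fin n)))) =
      univ.filter (fun f : Fin n → ZMod p => Function.Injective (f ∘ fun x : {x // x ∈ E} => x.1)) := by
    ext c
    simp only [mem_filter, mem_univ, true_and]
    rw [Set.injOn_iff_injective]
    rfl
  rw [e1]
  have e2 : (univ.filter (fun g : {x // x ∈ E} → ZMod p => Function.Injective g)).card
      = p.descFactorial E.card := by
    rw [← Fintype.card_subtype]
    rw [Fintype.card_congr (Equiv.subtypeInjectiveEquivEmbedding _ _), Fintype.card_embedding_eq]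
    simp [ZMod.card]
  rw [e2] at h
  simpa [ZMod.card] using h


/-! ### Polynomial lower bound -/

open Classical in
/-- The family built from a colouring `c` with values in `ZMod p` and a syndrome `(a,b)`. -/
noncomputable def codeFam (n k p : ℕ) (c : Fin n → ZMod p) (a b : ZMod p) :
    Finset (Finset (Fin n)) :=
  ((univ : Finset (Fin n)).powersetCard k).filter
    (fun E => Set.InjOn c (E : Set (Fin n)) ∧
      ∃ y ∈ E, ∑ z ∈ E.erase y, c z = a ∧ ∑ z ∈ E.erase y, (c z) ^ 2 = b)

theorem mem_codeFam {n k p : ℕ} {c : Fin n → ZMod p} {a b : ZMod p} {E : Finset (Fin n)} :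
    E ∈ codeFam n k p c a b ↔ E.card = k ∧ Set.InjOn c (E : Set (Fin n)) ∧
      ∃ y ∈ E, ∑ z ∈ E.erase y, c z = a ∧ ∑ z ∈ E.erase y, (c z) ^ 2 = b := by
  classical
  simp [codeFam, mem_powersetCard]

theorem code_admissible (n k p : ℕ) [Fact p.Prime] (hp : p ≠ 2) (c : Fin n → ZMod p) (a b : ZMod p) :
    Admissible n k (codeFam n k p c a b) := by
  classical
  have two : (2 : ZMod p) ≠ 0 := by
    intro h
    have h2 : ((2 : ℕ) : ZMod p) = 0 := by exact_mod_cast h
    rw [ZMod.natCast_eq_zero_iff] at h2
    have := (Nat.prime_dvd_prime_iff_eq (Fact.out : p.Prime) Nat.prime_two).1 h2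
    exact hp this
  apply admissible_of
  · intro E hE; exact (mem_codeFam.1 hE).1
  · intro S hS x hxS hxH
    obtain ⟨hc, hinj, y, hy, ha, hb⟩ := mem_codeFam.1 hxH
    have hyS : y ∈ S := Finset.mem_of_mem_erase hy
    have hyx : y ≠ x := Finset.ne_of_mem_erase hy
    have card_er : ∀ z ∈ S, (S.erase z).card = k := by
      intro z hz; rw [Finset.card_erase_of_mem hz, hS]; omega
    -- total sums
    have sum2 : ∀ (f : Fin n → ZMod p) (u v : Fin n), u ∈ S → v ∈ S.erase u →
        ∑ z ∈ (S.erase u).erase v, f z = ∑ z ∈ S, f z - f u - f v := by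
      intro f u v hu hv
      have h1 := Finset.add_sum_erase S f hu
      have h2 := Finset.add_sum_erase (S.erase u) f hv
      rw [← h1, ← h2]; ring
    by_cases hI : Set.InjOn c (S : Set (Fin n))
    · refine ⟨y, hyS, hyx, ?_⟩
      intro z hz
      constructor
      · intro hzH
        obtain ⟨_, _, w, hw, ha', hb'⟩ := mem_codeFam.1 hzH
        rw [sum2 (fun z => c z) x y hxS hy] at ha
        rw [sum2 (fun z => (c z) ^ 2) x y hxS hy] at hb
        rw [sum2 (fun z => c z) z w hz hw] at ha'
        rw [sum2 (fun z => (c z) ^ 2) z w hz hw] at hb'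
        have s1 : c x + c y = c z + c w := by linear_combination ha' - ha
        have s2 : (c x) ^ 2 + (c y) ^ 2 = (c z) ^ 2 + (c w) ^ 2 := by linear_combination hb' - hb
        have s3 : 2 * ((c z - c x) * (c z - c y)) = 0 := by
          have : c w = c x + c y - c z := by linear_combination -s1
          rw [this] at s2
          linear_combination -s2
        have s4 : (c z - c x) * (c z - c y) = 0 := by
          rcases mul_eq_zero.1 s3 with h | h
          · exact absurd h two
          · exact h
        rcases mul_eq_zero.1 s4 with h | h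
        · left; exact hI hz hxS (sub_eq_zero.1 h)
        · right; exact hI hz hyS (sub_eq_zero.1 h)
      · rintro (rfl | rfl)
        · exact hxH
        · refine mem_codeFam.2 ⟨card_er _ hyS, hI.mono (by simp), x, ?_, ?_, ?_⟩
          · simp [hxS, Ne.symm hyx]
          · rw [Finset.erase_right_comm]; exact ha
          · rw [Finset.erase_right_comm]; exact hb
    · -- not injective
      have : ∃ u ∈ S.erase x, c u = c x := by
        by_contra hcon
        push Not at hcon
        apply hI
        intro s hs t ht hst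
        by_cases hsx : s = x
        · by_cases htx : t = x
          · rw [hsx, htx]
          · exfalso
            exact hcon t (Finset.mem_erase.2 ⟨htx, ht⟩) (by rw [← hst, hsx])
        · by_cases htx : t = x
          · exfalso
            exact hcon s (Finset.mem_erase.2 ⟨hsx, hs⟩) (by rw [hst, htx])
          · exact hinj (by simpa using ⟨hs, hsx⟩) (by simpa using ⟨ht, htx⟩) hst
      obtain ⟨u, hu, hux⟩ := this
      have huS : u ∈ S := Finset.mem_of_mem_erase hu
      have hune : u ≠ x := Finset.ne_of_mem_erase hu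
      refine ⟨u, huS, hune, ?_⟩
      intro z hz
      constructor
      · intro hzH
        obtain ⟨_, hin, _⟩ := mem_codeFam.1 hzH
        by_contra hcon
        push Not at hcon
        have h1 : x ∈ S.erase z := by simp [hxS, Ne.symm hcon.1]
        have h2 : u ∈ S.erase z := by simp [huS, Ne.symm hcon.2]
        exact hune (hin (by exact_mod_cast h2) (by exact_mod_cast h1) hux)
      · rintro (rfl | rfl)
        · exact hxH
        · -- z = u
          have hin : Set.InjOn c ((S.erase z : Finset (Fin n)) : Set (Fin n)) := by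
            intro s hs t ht hst
            have hs' := Finset.mem_erase.1 (by exact_mod_cast hs : s ∈ S.erase z)
            have ht' := Finset.mem_erase.1 (by exact_mod_cast ht : t ∈ S.erase z)
            by_cases hsx : s = x
            · by_cases htx : t = x
              · rw [hsx, htx]
              · exfalso
                apply ht'.1
                apply hinj
                · simpa using ⟨ht'.2, htx⟩
                · simpa using ⟨huS, hune⟩
                · rw [← hst, hsx, hux]
            · by_cases htx : t = x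
              · exfalso
                apply hs'.1
                apply hinj
                · simpa using ⟨hs'.2, hsx⟩
                · simpa using ⟨huS, hune⟩
                · rw [hst, htx, hux]
              · exact hinj (by simpa using ⟨hs'.2, hsx⟩) (by simpa using ⟨ht'.2, htx⟩) hst
          by_cases hzy : z = y
          · subst hzy
            refine mem_codeFam.2 ⟨card_er _ huS, hin, x, ?_, ?_, ?_⟩
            · simp [hxS, Ne.symm hune]
            · rw [Finset.erase_right_comm]; exact ha
            · rw [Finset.erase_right_comm]; exact hb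
          · have hyz : y ∈ S.erase z := by simp [hyS, Ne.symm hzy]
            refine mem_codeFam.2 ⟨card_er _ huS, hin, y, hyz, ?_, ?_⟩
            · rw [← ha, sum2 (fun z => c z) x y hxS hy, sum2 (fun z => c z) z y huS hyz]
              simp only [hux]
            · rw [← hb, sum2 (fun z => (c z) ^ 2) x y hxS hy, sum2 (fun z => (c z) ^ 2) z y huS hyz]
              simp only [hux]

theorem code_sum (n k p : ℕ) [Fact p.Prime] (c : Fin n → ZMod p) :
    ∑ ab : ZMod p × ZMod p, (codeFam n k p c ab.1 ab.2).card
      = ∑ E ∈ (univ : Finset (Fin n)).powersetCard k,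
          if (Set.InjOn c (E : Set (Fin n))) then k else 0 := by
  classical
  have h1 : ∀ ab : ZMod p × ZMod p, (codeFam n k p c ab.1 ab.2).card =
      ∑ E ∈ (univ : Finset (Fin n)).powersetCard k,
        if (Set.InjOn c (E : Set (Fin n)) ∧
      ∃ y ∈ E, ∑ z ∈ E.erase y, c z = ab.1 ∧ ∑ z ∈ E.erase y, (c z) ^ 2 = ab.2) then 1 else 0 := by
    intro ab
    rw [codeFam, Finset.card_filter]
  rw [Finset.sum_congr rfl (fun ab _ => h1 ab), Finset.sum_comm]
  apply Finset.sum_congr rfl
  intro E hE
  have hEk : E.card = k := (Finset.mem_powersetCard.1 hE).2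
  by_cases hI : Set.InjOn c (E : Set (Fin n))
  · simp only [hI, true_and, if_true]
    rw [← Finset.card_filter]
    have : (univ.filter (fun ab : ZMod p × ZMod p =>
        ∃ y ∈ E, ∑ z ∈ E.erase y, c z = ab.1 ∧ ∑ z ∈ E.erase y, (c z) ^ 2 = ab.2)) =
        E.image (fun y => (∑ z ∈ E.erase y, c z, ∑ z ∈ E.erase y, (c z) ^ 2)) := by
      ext ⟨a, b⟩
      simp only [mem_filter, mem_univ, true_and, mem_image, Prod.mk.injEq]
    rw [this, Finset.card_image_of_injOn, hEk]
    intro y hy y' hy' hyy
    have hy1 : y ∈ E := by exact_mod_cast hy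
    have hy2 : y' ∈ E := by exact_mod_cast hy'
    simp only [Prod.mk.injEq] at hyy
    have h2 := Finset.add_sum_erase E (fun z => c z) hy1
    have h3 := Finset.add_sum_erase E (fun z => c z) hy2
    apply hI hy hy'
    have : c y + ∑ z ∈ E.erase y, c z = c y' + ∑ z ∈ E.erase y', c z := by
      rw [h2, h3]
    rw [hyy.1] at this
    exact add_right_cancel this
  · simp [hI]

theorem code_bound (n k p : ℕ) [Fact p.Prime] (hp : p ≠ 2) :
    k * p.descFactorial k * n.choose k ≤ p ^ (k + 2) * m n k := by
  classical
  have hp0 : 0 < p := (Fact.out : p.Prime).pos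
  -- total
  have t1 : ∑ c : Fin n → ZMod p, ∑ ab : ZMod p × ZMod p, (codeFam n k p c ab.1 ab.2).card
      ≤ p ^ n * (p ^ 2 * m n k) := by
    calc ∑ c : Fin n → ZMod p, ∑ ab : ZMod p × ZMod p, (codeFam n k p c ab.1 ab.2).card
        ≤ ∑ c : Fin n → ZMod p, ∑ ab : ZMod p × ZMod p, m n k := by
          apply Finset.sum_le_sum; intro c _
          apply Finset.sum_le_sum; intro ab _
          exact le_m (code_admissible n k p hp c ab.1 ab.2)
      _ = p ^ n * (p ^ 2 * m n k) := by
          simp [ZMod.card, pow_two]
  have t2 : ∑ c : Fin n → ZMod p, ∑ ab : ZMod p × ZMod p, (codeFam n k p c ab.1 ab.2).card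
      = ∑ E ∈ (univ : Finset (Fin n)).powersetCard k,
        (univ.filter (fun c : Fin n → ZMod p => Set.InjOn c (E : Set (Fin n)))).card * k := by
    rw [Finset.sum_congr rfl (fun c _ => code_sum n k p c), Finset.sum_comm]
    apply Finset.sum_congr rfl
    intro E _
    rw [← Finset.sum_filter]
    simp
  have t3 : (∑ E ∈ (univ : Finset (Fin n)).powersetCard k,
        (univ.filter (fun c : Fin n → ZMod p => Set.InjOn c (E : Set (Fin n)))).card * k) * p ^ k
      = n.choose k * (k * (p.descFactorial k * p ^ n)) := by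
    rw [Finset.sum_mul]
    have : ∀ E ∈ (univ : Finset (Fin n)).powersetCard k,
        (univ.filter (fun c : Fin n → ZMod p => Set.InjOn c (E : Set (Fin n)))).card * k * p ^ k
          = k * (p.descFactorial k * p ^ n) := by
      intro E hE
      have hEk : E.card = k := (Finset.mem_powersetCard.1 hE).2
      have := inj_count n p E
      rw [hEk] at this
      rw [← this]; ring
    rw [Finset.sum_congr rfl this]
    simp
  rw [t2] at t1
  have t4 := Nat.mul_le_mul_right (p ^ k) t1
  rw [t3] at t4
  have hpn : 0 < p ^ n := pow_pos hp0 n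
  apply Nat.le_of_mul_le_mul_left _ hpn
  calc p ^ n * (k * p.descFactorial k * n.choose k) = n.choose k * (k * (p.descFactorial k * p ^ n)) := by ring
    _ ≤ p ^ n * (p ^ 2 * m n k) * p ^ k := t4
    _ = p ^ n * (p ^ (k + 2) * m n k) := by ring

theorem desc_bound (p : ℕ) : ∀ k : ℕ, k ≤ p → 2 * p ^ (k + 1) ≤ 2 * (p * p.descFactorial k) + k * k * p ^ k := by
  intro k
  induction k with
  | zero => intro _; simp
  | succ k ih =>
    intro hk
    have ih' := ih (by omega)
    obtain ⟨q, hq⟩ : ∃ q, p = k + q := ⟨p - k, by omega⟩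
    have hsub : p - k = q := by omega
    rw [Nat.descFactorial_succ, hsub]
    -- multiply ih' by q and add
    have h1 := Nat.mul_le_mul_left q ih'
    have e1 : q * (2 * p ^ (k + 1)) + 2 * k * p ^ (k + 1) = 2 * p ^ (k + 1 + 1) := by
      have : p ^ (k + 1 + 1) = (k + q) * p ^ (k + 1) := by
        conv_lhs => rw [pow_succ, mul_comm]
        rw [← hq]
      rw [this]; ring
    have e2 : q * (k * k * p ^ k) ≤ k * k * p ^ (k + 1) := by
      have : q * p ^ k ≤ p ^ (k + 1) := by
        rw [pow_succ, mul_comm]
        exact Nat.mul_le_mul_left _ (by omega)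
      calc q * (k * k * p ^ k) = k * k * (q * p ^ k) := by ring
        _ ≤ k * k * p ^ (k + 1) := Nat.mul_le_mul_left _ this
    have e3 : (k + 1) * (k + 1) * p ^ (k + 1) = k * k * p ^ (k + 1) + 2 * k * p ^ (k + 1) + p ^ (k + 1) := by ring
    have e4 : q * (2 * (p * p.descFactorial k) + k * k * p ^ k)
        = 2 * (p * (q * p.descFactorial k)) + q * (k * k * p ^ k) := by ring
    rw [e4] at h1
    omega

/-- Polynomial lower bound. -/
theorem poly_lower (n k : ℕ) (hk : 2 ≤ k) : n.choose k ≤ 8 * k ^ 3 * m n k := by
  obtain ⟨p, hpp, h1, h2⟩ := Nat.exists_prime_lt_and_le_two_mul (k ^ 2) (by positivity)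
  have : Fact p.Prime := ⟨hpp⟩
  have hk2 : 4 ≤ k ^ 2 := by nlinarith
  have hp2 : p ≠ 2 := by omega
  have hb := code_bound n k p hp2
  have hkp : k ≤ p := by nlinarith
  have hd := desc_bound p k hkp
  have hp0 : 0 < p := hpp.pos
  -- p ^ k ≤ 2 * descFactorial
  have hd2 : p ^ k ≤ 2 * p.descFactorial k := by
    have h3 : k * k * p ^ k ≤ p ^ (k + 1) := by
      rw [pow_succ, mul_comm (p ^ k) p]
      exact Nat.mul_le_mul_right _ (by nlinarith)
    have h4 : p * p ^ k ≤ p * (2 * p.descFactorial k) := by
      have : p ^ (k + 1) = p * p ^ k := by rw [pow_succ, mul_comm]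
      rw [this] at hd h3
      nlinarith
    exact Nat.le_of_mul_le_mul_left h4 hp0
  have hpk : 0 < p ^ k := pow_pos hp0 k
  -- k * C ≤ 2 p^2 m
  have h5 : k * n.choose k ≤ 2 * p ^ 2 * m n k := by
    apply Nat.le_of_mul_le_mul_left _ hpk
    calc p ^ k * (k * n.choose k) ≤ (2 * p.descFactorial k) * (k * n.choose k) :=
          Nat.mul_le_mul_right _ hd2
      _ = 2 * (k * p.descFactorial k * n.choose k) := by ring
      _ ≤ 2 * (p ^ (k + 2) * m n k) := Nat.mul_le_mul_left _ hb
      _ = p ^ k * (2 * p ^ 2 * m n k) := by ring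
  have h6 : p ^ 2 ≤ 4 * k ^ 4 := by
    calc p ^ 2 ≤ (2 * k ^ 2) ^ 2 := Nat.pow_le_pow_left h2 2
      _ = 4 * k ^ 4 := by ring
  have h7 : k * n.choose k ≤ k * (8 * k ^ 3 * m n k) := by
    calc k * n.choose k ≤ 2 * p ^ 2 * m n k := h5
      _ ≤ 2 * (4 * k ^ 4) * m n k := by gcongr
      _ = k * (8 * k ^ 3 * m n k) := by ring
  exact Nat.le_of_mul_le_mul_left h7 (by omega)

/-- For all `n` and all `k ≥ 2`: `C(n,k) / (8 k^3) ≤ m(n,k)` and `k^2 m(n,k) ≤ n C(n,k-1)`. -/
theorem result : ∀ n k : ℕ, 2 ≤ k →
    n.choose k ≤ 8 * k ^ 3 * m n k ∧ k ^ 2 * m n k ≤ n * n.choose (k - 1) :=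
  fun n k hk => ⟨poly_lower n k hk, upper n k⟩

end Pool.Agent.Results.MP_07f90a_co.AllK
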