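import Pool.Agent.MP07f90a.Basic

/-!
# `k = 5`: an admissible 5-uniform family of density at least `15/128`

Colour the points by two colours and take any bipartite graph between the two colour classes.  The
family consists of the five-sets that meet the classes in `2` and `3` points and in which the three
points of the larger part have degrees `0`, `1`, `2` in the other part.  Every six points span
exactly `0` or exactly `2` such five-sets (a finite check), and for a random colouring and a random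
bipartite graph a five-set has this property with probability `3840 / 32768 = 15/128`.
-/

open Finset

namespace Pool.Agent.Results.MP_07f90a_co.FiveUniform

open Pool.Agent.MP07f90a

def ok7 (n : ℕ) : Bool := n.beq 0 || n.beq 2
theorem beqT (a b : ℕ) : (a.beq b = true) ↔ a = b := by
  rw [Nat.beq_eq]

def sumB (f : Bool → ℕ) : ℕ := f false + f true

theorem sum_cons (n : ℕ) (F : (Fin (n + 1) → Bool) → ℕ) :
    ∑ g : Fin (n + 1) → Bool, F g = sumB (fun b => ∑ g : Fin n → Bool, F (Fin.cons b g)) := by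
  rw [← (Fin.consEquiv (fun _ : Fin (n + 1) => Bool)).sum_comp, Fintype.sum_prod_type]
  rw [Fintype.sum_bool, sumB, add_comm]
  rfl

theorem sum_zero (F : (Fin 0 → Bool) → ℕ) : ∑ g : Fin 0 → Bool, F g = F (fun i => i.elim0) := by
  rw [Fintype.sum_unique]
  exact congrArg F (Subsingleton.elim _ _)

/-- contribution of a pair to the degree: the pair must be bichromatic and present -/
def dg (c d b : Bool) : ℕ := ((xor c d) && b).toNat

/-- number of the five points with majority colour `mj` and degree `v` -/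
def nd (mj : Bool) (v : ℕ) (c0 c1 c2 c3 c4 : Bool) (d0 d1 d2 d3 d4 : ℕ) : ℕ :=
  (!(xor c0 mj) && d0.beq v).toNat + (!(xor c1 mj) && d1.beq v).toNat
  + (!(xor c2 mj) && d2.beq v).toNat + (!(xor c3 mj) && d3.beq v).toNat
  + (!(xor c4 mj) && d4.beq v).toNat

def R5 (mj : Bool) (c0 c1 c2 c3 c4 : Bool) (d0 d1 d2 d3 d4 : ℕ) : Bool :=
  (nd mj 0 c0 c1 c2 c3 c4 d0 d1 d2 d3 d4).beq 1 &&
  (nd mj 1 c0 c1 c2 c3 c4 d0 d1 d2 d3 d4).beq 1 &&
  (nd mj 2 c0 c1 c2 c3 c4 d0 d1 d2 d3 d4).beq 1

def T5 (t : ℕ) (c0 c1 c2 c3 c4 : Bool) (d0 d1 d2 d3 d4 : ℕ) : Bool :=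
  (t.beq 2 && R5 false c0 c1 c2 c3 c4 d0 d1 d2 d3 d4) ||
  (t.beq 3 && R5 true c0 c1 c2 c3 c4 d0 d1 d2 d3 d4)

/-- Five coloured points with a bipartite graph between the two colour classes: the classes have
sizes `2` and `3`, and the three majority points have degrees `0`, `1`, `2`. -/
def P5 (c0 c1 c2 c3 c4 : Bool) (b01 b02 b03 b04 b12 b13 b14 b23 b24 b34 : Bool) : Bool :=
  T5 (c0.toNat + c1.toNat + c2.toNat + c3.toNat + c4.toNat) c0 c1 c2 c3 c4
    (dg c0 c1 b01 + dg c0 c2 b02 + dg c0 c3 b03 + dg c0 c4 b04)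
    (dg c1 c0 b01 + dg c1 c2 b12 + dg c1 c3 b13 + dg c1 c4 b14)
    (dg c2 c0 b02 + dg c2 c1 b12 + dg c2 c3 b23 + dg c2 c4 b24)
    (dg c3 c0 b03 + dg c3 c1 b13 + dg c3 c2 b23 + dg c3 c4 b34)
    (dg c4 c0 b04 + dg c4 c1 b14 + dg c4 c2 b24 + dg c4 c3 b34)

def cnt6 (c0 c1 c2 c3 c4 c5 : Bool) (b01 b02 b03 b04 b05 b12 b13 b14 b15 b23 b24 b25 b34 b35 b45 : Bool) : ℕ :=
  (P5 c1 c2 c3 c4 c5 b12 b13 b14 b15 b23 b24 b25 b34 b35 b45).toNat
  + (P5 c0 c2 c3 c4 c5 b02 b03 b04 b05 b23 b24 b25 b34 b35 b45).toNat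
  + (P5 c0 c1 c3 c4 c5 b01 b03 b04 b05 b13 b14 b15 b34 b35 b45).toNat
  + (P5 c0 c1 c2 c4 c5 b01 b02 b04 b05 b12 b14 b15 b24 b25 b45).toNat
  + (P5 c0 c1 c2 c3 c5 b01 b02 b03 b05 b12 b13 b15 b23 b25 b35).toNat
  + (P5 c0 c1 c2 c3 c4 b01 b02 b03 b04 b12 b13 b14 b23 b24 b34).toNat

def allB (F : Bool → Bool) : Bool := F false && F true

def allM (mk : Bool) (F : Bool → Bool) : Bool := F false && (!mk || F true)

theorem allB_spec {F : Bool → Bool} (h : allB F = true) (b : Bool) : F b = true := by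
  unfold allB at h
  rw [Bool.and_eq_true] at h
  cases b
  · exact h.1
  · exact h.2

theorem allM_spec {mk : Bool} {F : Bool → Bool} (h : allM mk F = true) (b : Bool)
    (hb : b = true → mk = true) : F b = true := by
  unfold allM at h
  rw [Bool.and_eq_true] at h
  cases b
  · exact h.1
  · have := hb rfl
    rw [this] at h
    simpa using h.2

set_option maxRecDepth 100000 in
theorem chk6raw : (allB fun c0 => allB fun c1 => allB fun c2 => allB fun c3 => allB fun c4 => allB fun c5 => 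
    allM (xor c0 c1) fun b01 => 
    allM (xor c0 c2) fun b02 => 
    allM (xor c0 c3) fun b03 => 
    allM (xor c0 c4) fun b04 => 
    allM (xor c0 c5) fun b05 => 
    allM (xor c1 c2) fun b12 => 
    allM (xor c1 c3) fun b13 => 
    allM (xor c1 c4) fun b14 => 
    allM (xor c1 c5) fun b15 => 
    allM (xor c2 c3) fun b23 => 
    allM (xor c2 c4) fun b24 => 
    allM (xor c2 c5) fun b25 => 
    allM (xor c3 c4) fun b34 => 
    allM (xor c3 c5) fun b35 => 
    allM (xor c4 c5) fun b45 => 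
    ok7 (cnt6 c0 c1 c2 c3 c4 c5 b01 b02 b03 b04 b05 b12 b13 b14 b15 b23 b24 b25 b34 b35 b45)) = true := by
  decide +kernel

theorem chk6 (c0 c1 c2 c3 c4 c5 b01 b02 b03 b04 b05 b12 b13 b14 b15 b23 b24 b25 b34 b35 b45 : Bool) (h01 : b01 = true → xor c0 c1 = true) (h02 : b02 = true → xor c0 c2 = true) (h03 : b03 = true → xor c0 c3 = true) (h04 : b04 = true → xor c0 c4 = true) (h05 : b05 = true → xor c0 c5 = true) (h12 : b12 = true → xor c1 c2 = true) (h13 : b13 = true → xor c1 c3 = true) (h14 : b14 = true → xor c1 c4 = true) (h15 : b15 = true → xor c1 c5 = true) (h23 : b23 = true → xor c2 c3 = true) (h24 : b24 = true → xor c2 c4 = true) (h25 : b25 = true → xor c2 c5 = true) (h34 : b34 = true → xor c3 c4 = true) (h35 : b35 = true → xor c3 c5 = true) (h45 : b45 = true → xor c4 c5 = true) :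
    ok7 (cnt6 c0 c1 c2 c3 c4 c5 b01 b02 b03 b04 b05 b12 b13 b14 b15 b23 b24 b25 b34 b35 b45) = true := by
  have h := chk6raw
  replace h := allB_spec h c0
  replace h := allB_spec h c1
  replace h := allB_spec h c2
  replace h := allB_spec h c3
  replace h := allB_spec h c4
  replace h := allB_spec h c5
  replace h := allM_spec h b01 h01
  replace h := allM_spec h b02 h02
  replace h := allM_spec h b03 h03
  replace h := allM_spec h b04 h04
  replace h := allM_spec h b05 h05
  replace h := allM_spec h b12 h12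
  replace h := allM_spec h b13 h13
  replace h := allM_spec h b14 h14
  replace h := allM_spec h b15 h15
  replace h := allM_spec h b23 h23
  replace h := allM_spec h b24 h24
  replace h := allM_spec h b25 h25
  replace h := allM_spec h b34 h34
  replace h := allM_spec h b35 h35
  replace h := allM_spec h b45 h45
  exact h

theorem dg_mask (c d b : Bool) : dg c d (xor c d && b) = dg c d b := by
  cases c <;> cases d <;> cases b <;> rfl

theorem dg_mask' (c d b : Bool) : dg d c (xor c d && b) = dg d c b := by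
  cases c <;> cases d <;> cases b <;> rfl

theorem P5_mask (c0 c1 c2 c3 c4 : Bool) (b01 b02 b03 b04 b12 b13 b14 b23 b24 b34 : Bool) :
    P5 c0 c1 c2 c3 c4 (xor c0 c1 && b01) (xor c0 c2 && b02) (xor c0 c3 && b03) (xor c0 c4 && b04) (xor c1 c2 && b12) (xor c1 c3 && b13) (xor c1 c4 && b14) (xor c2 c3 && b23) (xor c2 c4 && b24) (xor c3 c4 && b34) = P5 c0 c1 c2 c3 c4 b01 b02 b03 b04 b12 b13 b14 b23 b24 b34 := by
  unfold P5
  simp only [dg_mask, dg_mask']

def Q5 (c : Fin 5 → Bool) (g : Fin 5 → Fin 5 → Bool) : Bool :=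
  P5 (c 0) (c 1) (c 2) (c 3) (c 4) (g 0 1) (g 0 2) (g 0 3) (g 0 4) (g 1 2) (g 1 3) (g 1 4) (g 2 3) (g 2 4) (g 3 4)

theorem Q5_mask (c : Fin 5 → Bool) (g : Fin 5 → Fin 5 → Bool) :
    Q5 c (fun i j => xor (c i) (c j) && g i j) = Q5 c g := by
  unfold Q5
  exact P5_mask _ _ _ _ _ _ _ _ _ _ _ _ _ _ _

theorem cnt_eq6 (c : Fin 6 → Bool) (g : Fin 6 → Fin 6 → Bool) :
    (∑ t : Fin 6, (Q5 (fun i => c (t.succAbove i))
      (fun i j => g (t.succAbove i) (t.succAbove j))).toNat) =
      cnt6 (c 0) (c 1) (c 2) (c 3) (c 4) (c 5) (g 0 1) (g 0 2) (g 0 3) (g 0 4) (g 0 5) (g 1 2) (g 1 3) (g 1 4) (g 1 5) (g 2 3) (g 2 4) (g 2 5) (g 3 4) (g 3 5) (g 4 5) := by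
  rw [Fin.sum_univ_six]
  rfl

theorem cnt_ok6 (c : Fin 6 → Bool) (g : Fin 6 → Fin 6 → Bool) :
    (∑ t : Fin 6, (Q5 (fun i => c (t.succAbove i))
      (fun i j => g (t.succAbove i) (t.succAbove j))).toNat) = 0 ∨
    (∑ t : Fin 6, (Q5 (fun i => c (t.succAbove i))
      (fun i j => g (t.succAbove i) (t.succAbove j))).toNat) = 2 := by
  set g' : Fin 6 → Fin 6 → Bool := fun i j => xor (c i) (c j) && g i j with hg'
  have h1 : (∑ t : Fin 6, (Q5 (fun i => c (t.succAbove i))
      (fun i j => g (t.succAbove i) (t.succAbove j))).toNat) =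
      ∑ t : Fin 6, (Q5 (fun i => c (t.succAbove i))
      (fun i j => g' (t.succAbove i) (t.succAbove j))).toNat := by
    apply Finset.sum_congr rfl
    intro t _
    congr 1
    symm
    exact Q5_mask (fun i => c (t.succAbove i)) (fun i j => g (t.succAbove i) (t.succAbove j))
  rw [h1, cnt_eq6]
  have hm : ∀ i j : Fin 6, g' i j = true → xor (c i) (c j) = true := by
    intro i j h
    simp only [hg', Bool.and_eq_true] at h
    exact h.1
  have := chk6 (c 0) (c 1) (c 2) (c 3) (c 4) (c 5) (g' 0 1) (g' 0 2) (g' 0 3) (g' 0 4) (g' 0 5) (g' 1 2) (g' 1 3) (g' 1 4) (g' 1 5) (g' 2 3) (g' 2 4) (g' 2 5) (g' 3 4) (g' 3 5) (g' 4 5) (hm 0 1) (hm 0 2) (hm 0 3) (hm 0 4) (hm 0 5) (hm 1 2) (hm 1 3) (hm 1 4) (hm 1 5) (hm 2 3) (hm 2 4) (hm 2 5) (hm 3 4) (hm 3 5) (hm 4 5)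
  unfold ok7 at this
  rw [Bool.or_eq_true, beqT, beqT] at this
  exact this

set_option maxRecDepth 100000 in
theorem count_raw5 : (sumB fun x0 => sumB fun x1 => sumB fun x2 => sumB fun x3 => sumB fun x4 => sumB fun x5 => sumB fun x6 => sumB fun x7 => sumB fun x8 => sumB fun x9 => sumB fun x10 => sumB fun x11 => sumB fun x12 => sumB fun x13 => sumB fun x14 => (P5 x0 x1 x2 x3 x4 x5 x6 x7 x8 x9 x10 x11 x12 x13 x14).toNat) = 3840 := by
  decide +kernel

theorem count_P5 :
    (univ.filter (fun g : Fin 15 → Bool => P5 (g 0) (g 1) (g 2) (g 3) (g 4) (g 5) (g 6) (g 7) (g 8) (g 9) (g 10) (g 11) (g 12) (g 13) (g 14) = true)).card = 3840 := by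
  rw [Finset.card_filter]
  have h1 : ∀ b : Bool, (if b = true then 1 else 0) = b.toNat := by decide
  simp only [h1]
  rw [← count_raw5]
  rw [sum_cons]
  refine congrArg sumB (funext fun x0 => ?_)
  rw [sum_cons]
  refine congrArg sumB (funext fun x1 => ?_)
  rw [sum_cons]
  refine congrArg sumB (funext fun x2 => ?_)
  rw [sum_cons]
  refine congrArg sumB (funext fun x3 => ?_)
  rw [sum_cons]
  refine congrArg sumB (funext fun x4 => ?_)
  rw [sum_cons]
  refine congrArg sumB (funext fun x5 => ?_)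
  rw [sum_cons]
  refine congrArg sumB (funext fun x6 => ?_)
  rw [sum_cons]
  refine congrArg sumB (funext fun x7 => ?_)
  rw [sum_cons]
  refine congrArg sumB (funext fun x8 => ?_)
  rw [sum_cons]
  refine congrArg sumB (funext fun x9 => ?_)
  rw [sum_cons]
  refine congrArg sumB (funext fun x10 => ?_)
  rw [sum_cons]
  refine congrArg sumB (funext fun x11 => ?_)
  rw [sum_cons]
  refine congrArg sumB (funext fun x12 => ?_)
  rw [sum_cons]
  refine congrArg sumB (funext fun x13 => ?_)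
  rw [sum_cons]
  refine congrArg sumB (funext fun x14 => ?_)
  rw [sum_zero]
  rfl

/-- index map of the fifteen random bits read by five points -/
def ix {n : ℕ} (f : Fin 5 → Fin n) : Fin 15 → Fin n ⊕ Fin n × Fin n :=
  ![Sum.inl (f 0), Sum.inl (f 1), Sum.inl (f 2), Sum.inl (f 3), Sum.inl (f 4),
    Sum.inr (f 0, f 1), Sum.inr (f 0, f 2), Sum.inr (f 0, f 3), Sum.inr (f 0, f 4), Sum.inr (f 1, f 2), Sum.inr (f 1, f 3), Sum.inr (f 1, f 4), Sum.inr (f 2, f 3), Sum.inr (f 2, f 4), Sum.inr (f 3, f 4)]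

theorem ix_comp {n : ℕ} (f : Fin 5 → Fin n) :
    ix f = (fun x : Fin 5 ⊕ Fin 5 × Fin 5 => Sum.map f (Prod.map f f) x) ∘ ix (fun i : Fin 5 => i) := by
  funext t
  fin_cases t <;> rfl

theorem ix_id_inj : Function.Injective (ix (fun i : Fin 5 => i)) := by
  decide +kernel

theorem ix_inj {n : ℕ} (f : Fin 5 → Fin n) (hf : Function.Injective f) :
    Function.Injective (ix f) := by
  rw [ix_comp]
  exact (Sum.map_injective.2 ⟨hf, Prod.map_injective.2 ⟨hf, hf⟩⟩).comp ix_id_inj

def PP5 {n : ℕ} (s : Fin n ⊕ Fin n × Fin n → Bool) (f : Fin 5 → Fin n) : Bool :=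
  Q5 (fun i => s (Sum.inl (f i))) (fun i j => s (Sum.inr (f i, f j)))

open Classical in
noncomputable def bipFam (n : ℕ) (s : Fin n ⊕ Fin n × Fin n → Bool) : Finset (Finset (Fin n)) :=
  ((univ : Finset (Fin n)).powersetCard 5).filter
    (fun E => ∃ f : Fin 5 → Fin n, StrictMono f ∧ univ.image f = E ∧ PP5 s f = true)

theorem mem_bipFam {n : ℕ} {s : Fin n ⊕ Fin n × Fin n → Bool} {f : Fin 5 → Fin n} (hf : StrictMono f) :
    univ.image f ∈ bipFam n s ↔ PP5 s f = true := by
  classical
  unfold bipFam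
  rw [Finset.mem_filter]
  constructor
  · rintro ⟨_, f', hf', he, hP⟩
    have : f' = f := by
      have h1 : Set.range f' = Set.range f := by
        have := congrArg (fun T : Finset (Fin n) => (T : Set (Fin n))) he
        simpa using this
      exact (StrictMono.range_inj hf' hf).1 h1
    rw [← this]; exact hP
  · intro h
    refine ⟨?_, f, hf, rfl, h⟩
    rw [Finset.mem_powersetCard]
    refine ⟨Finset.subset_univ _, ?_⟩
    rw [Finset.card_image_of_injective _ hf.injective]; simp

theorem bip_admissible (n : ℕ) (s : Fin n ⊕ Fin n × Fin n → Bool) :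
    Admissible n 5 (bipFam n s) := by
  classical
  have hk : ∀ E ∈ bipFam n s, E.card = 5 := by
    intro E hE
    unfold bipFam at hE
    rw [Finset.mem_filter, Finset.mem_powersetCard] at hE
    exact hE.1.2
  refine ⟨hk, fun S hS => ?_⟩
  rw [filter_card hk hS]
  set e : Fin 6 → Fin n := ⇑(S.orderEmbOfFin hS) with he
  have hmono : StrictMono e := (S.orderEmbOfFin hS).strictMono
  have hrange : ∀ x, x ∈ S ↔ ∃ t, e t = x := by
    intro x
    have := Finset.range_orderEmbOfFin S hS
    constructor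
    · intro hx
      have : x ∈ Set.range (S.orderEmbOfFin hS) := by rw [this]; exact_mod_cast hx
      exact this
    · rintro ⟨t, rfl⟩
      exact Finset.orderEmbOfFin_mem S hS t
  have her : ∀ t : Fin 6, S.erase (e t) = univ.image (fun i => e (t.succAbove i)) := by
    intro t
    ext x
    rw [Finset.mem_erase, hrange, Finset.mem_image]
    constructor
    · rintro ⟨hne, u, rfl⟩
      have hut : u ≠ t := fun h => hne (by rw [h])
      obtain ⟨i, hi⟩ := Fin.exists_succAbove_eq hut
      exact ⟨i, Finset.mem_univ _, by rw [hi]⟩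
    · rintro ⟨i, _, rfl⟩
      refine ⟨?_, _, rfl⟩
      intro h
      exact Fin.succAbove_ne t i (hmono.injective h)
  have hmem : ∀ t : Fin 6, (S.erase (e t) ∈ bipFam n s ↔
      Q5 (fun i => (fun a => s (Sum.inl (e a))) (t.succAbove i))
        (fun i j => (fun a b => s (Sum.inr (e a, e b))) (t.succAbove i) (t.succAbove j)) = true) := by
    intro t
    rw [her t]
    rw [mem_bipFam (f := fun i => e (t.succAbove i)) (hmono.comp (Fin.strictMono_succAbove t))]
    rfl
  have hcard : (S.filter (fun x => S.erase x ∈ bipFam n s)).card =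
      ∑ t : Fin 6, (Q5 (fun i => (fun a => s (Sum.inl (e a))) (t.succAbove i))
        (fun i j => (fun a b => s (Sum.inr (e a, e b))) (t.succAbove i) (t.succAbove j))).toNat := by
    have h2 : S.filter (fun x => S.erase x ∈ bipFam n s) =
        (univ.filter (fun t : Fin 6 => Q5 (fun i => (fun a => s (Sum.inl (e a))) (t.succAbove i))
        (fun i j => (fun a b => s (Sum.inr (e a, e b))) (t.succAbove i) (t.succAbove j)) = true)).image e := by
      ext x
      simp only [Finset.mem_filter, Finset.mem_image, Finset.mem_univ, true_and]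
      constructor
      · rintro ⟨hx, hx2⟩
        obtain ⟨t, rfl⟩ := (hrange x).1 hx
        exact ⟨t, (hmem t).1 hx2, rfl⟩
      · rintro ⟨t, ht, rfl⟩
        exact ⟨(hrange _).2 ⟨t, rfl⟩, (hmem t).2 ht⟩
    rw [h2, Finset.card_image_of_injective _ hmono.injective, Finset.card_filter]
    apply Finset.sum_congr rfl
    intro t _
    cases Q5 (fun i => (fun a => s (Sum.inl (e a))) (t.succAbove i))
        (fun i j => (fun a b => s (Sum.inr (e a, e b))) (t.succAbove i) (t.succAbove j)) <;> rfl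
  rw [hcard]
  exact cnt_ok6 (fun a => s (Sum.inl (e a))) (fun a b => s (Sum.inr (e a, e b)))

theorem PP5_count {n : ℕ} (f : Fin 5 → Fin n) (hf : Function.Injective f) :
    (univ.filter (fun s : Fin n ⊕ Fin n × Fin n → Bool => PP5 s f = true)).card * 2 ^ 15
      = 3840 * 2 ^ (n + n * n) := by
  classical
  have h := restrict_count (α := Fin n ⊕ Fin n × Fin n) (β := Bool) (ι := Fin 15)
    (ix f) (ix_inj f hf)
    (fun g => P5 (g 0) (g 1) (g 2) (g 3) (g 4) (g 5) (g 6) (g 7) (g 8) (g 9) (g 10) (g 11) (g 12) (g 13) (g 14) = true)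
  rw [count_P5] at h
  have e0 : (univ.filter (fun s : Fin n ⊕ Fin n × Fin n → Bool => PP5 s f = true)) =
      univ.filter (fun s : Fin n ⊕ Fin n × Fin n → Bool =>
        (fun g : Fin 15 → Bool => P5 (g 0) (g 1) (g 2) (g 3) (g 4) (g 5) (g 6) (g 7) (g 8) (g 9) (g 10) (g 11) (g 12) (g 13) (g 14) = true)
          (s ∘ ix f)) :=
    Finset.filter_congr (fun s _ => Iff.rfl)
  rw [e0]
  simp only [Fintype.card_bool, Fintype.card_fin, Fintype.card_prod, Fintype.card_sum] at h
  exact h

theorem bip_lower (n : ℕ) : 15 * n.choose 5 ≤ 128 * m n 5 := by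
  classical
  have t1 : ∑ s : Fin n ⊕ Fin n × Fin n → Bool, (bipFam n s).card ≤ 2 ^ (n + n * n) * m n 5 := by
    calc ∑ s : Fin n ⊕ Fin n × Fin n → Bool, (bipFam n s).card
        ≤ ∑ s : Fin n ⊕ Fin n × Fin n → Bool, m n 5 := by
          apply Finset.sum_le_sum; intro s _
          exact le_m (bip_admissible n s)
      _ = 2 ^ (n + n * n) * m n 5 := by simp
  have t2 : ∑ s : Fin n ⊕ Fin n × Fin n → Bool, (bipFam n s).card
      = ∑ E ∈ (univ : Finset (Fin n)).powersetCard 5,
        (univ.filter (fun s : Fin n ⊕ Fin n × Fin n → Bool => E ∈ bipFam n s)).card := by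
    have h1 : ∀ s : Fin n ⊕ Fin n × Fin n → Bool, (bipFam n s).card =
        ∑ E ∈ (univ : Finset (Fin n)).powersetCard 5, if E ∈ bipFam n s then 1 else 0 := by
      intro s
      rw [← Finset.card_filter]
      congr 1
      ext E
      unfold bipFam
      simp only [Finset.mem_filter]
      tauto
    rw [Finset.sum_congr rfl (fun s _ => h1 s), Finset.sum_comm]
    apply Finset.sum_congr rfl
    intro E _
    rw [← Finset.card_filter]
  have t3 : (∑ E ∈ (univ : Finset (Fin n)).powersetCard 5,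
        (univ.filter (fun s : Fin n ⊕ Fin n × Fin n → Bool => E ∈ bipFam n s)).card) * 2 ^ 15
      = n.choose 5 * (3840 * 2 ^ (n + n * n)) := by
    rw [Finset.sum_mul]
    have : ∀ E ∈ (univ : Finset (Fin n)).powersetCard 5,
        (univ.filter (fun s : Fin n ⊕ Fin n × Fin n → Bool => E ∈ bipFam n s)).card * 2 ^ 15
          = 3840 * 2 ^ (n + n * n) := by
      intro E hE
      have hEk : E.card = 5 := (Finset.mem_powersetCard.1 hE).2
      set f : Fin 5 → Fin n := ⇑(E.orderEmbOfFin hEk) with hf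
      have hmono : StrictMono f := (E.orderEmbOfFin hEk).strictMono
      have himg : univ.image f = E := by
        rw [← Finset.coe_inj, Finset.coe_image, Finset.coe_univ, Set.image_univ]
        exact Finset.range_orderEmbOfFin E hEk
      have e1 : (univ.filter (fun s : Fin n ⊕ Fin n × Fin n → Bool => E ∈ bipFam n s)) =
          univ.filter (fun s : Fin n ⊕ Fin n × Fin n → Bool => PP5 s f = true) := by
        ext s
        simp only [Finset.mem_filter, Finset.mem_univ, true_and]
        conv_lhs => rw [← himg]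
        exact mem_bipFam hmono
      rw [e1]
      exact PP5_count f hmono.injective
    rw [Finset.sum_congr rfl this]
    simp
  rw [t2] at t1
  have t4 := Nat.mul_le_mul_right (2 ^ 15) t1
  rw [t3] at t4
  have hp : 0 < 2 ^ (n + n * n) := by positivity
  have h5 : 2 ^ (n + n * n) * (3840 * n.choose 5) ≤ 2 ^ (n + n * n) * (32768 * m n 5) := by
    calc 2 ^ (n + n * n) * (3840 * n.choose 5) = n.choose 5 * (3840 * 2 ^ (n + n * n)) := by ring
      _ ≤ 2 ^ (n + n * n) * m n 5 * 2 ^ 15 := t4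
      _ = 2 ^ (n + n * n) * (32768 * m n 5) := by ring
  have h6 := Nat.le_of_mul_le_mul_left h5 hp
  omega

/-- For every `n`: `(15/128) C(n,5) ≤ m(n,5)` and `25 m(n,5) ≤ n C(n,4)`. -/
theorem result : ∀ n : ℕ, 15 * n.choose 5 ≤ 128 * m n 5 ∧ 25 * m n 5 ≤ n * n.choose 4 :=
  fun n => ⟨bip_lower n, upper n 5⟩

end Pool.Agent.Results.MP_07f90a_co.FiveUniform
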