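import Pool.Agent.MP07f90a.Basic

/-!
# `k = 6`: any tournament gives an admissible 6-uniform family; density at least `9/64`

For a tournament on `n` points take the six-sets on which the skew-symmetric sign matrix has
Pfaffian `5` or `-5`.  Every seven points span exactly `0` or exactly `2` such six-sets
(a finite check), and in a random tournament a six-set has this property with probability
`4608 / 32768 = 9/64`.
-/

open Finset

namespace Pool.Agent.Results.MP_07f90a_co.SixUniform

open Pool.Agent.MP07f90a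

/-- three-fold exclusive or -/
def x3 (a b c : Bool) : Bool := xor a (xor b c)

/-- For six ordered points carrying a sign on every pair: the number of negative terms in the
Pfaffian expansion over the fifteen perfect matchings. -/
def neg6 (b01 b02 b03 b04 b05 b12 b13 b14 b15 b23 b24 b25 b34 b35 b45 : Bool) : ℕ :=
  (x3 b01 b23 b45).toNat
  + (!(x3 b01 b24 b35)).toNat
  + (x3 b01 b25 b34).toNat
  + (!(x3 b02 b13 b45)).toNat
  + (x3 b02 b14 b35).toNat
  + (!(x3 b02 b15 b34)).toNat
  + (x3 b03 b12 b45).toNat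
  + (!(x3 b03 b14 b25)).toNat
  + (x3 b03 b15 b24).toNat
  + (!(x3 b04 b12 b35)).toNat
  + (x3 b04 b13 b25).toNat
  + (!(x3 b04 b15 b23)).toNat
  + (x3 b05 b12 b34).toNat
  + (!(x3 b05 b13 b24)).toNat
  + (x3 b05 b14 b23).toNat

/-- The Pfaffian `15 - 2 * neg6` has absolute value `5`. -/
def P6 (b01 b02 b03 b04 b05 b12 b13 b14 b15 b23 b24 b25 b34 b35 b45 : Bool) : Bool :=
  (neg6 b01 b02 b03 b04 b05 b12 b13 b14 b15 b23 b24 b25 b34 b35 b45).beq 5 ||
  (neg6 b01 b02 b03 b04 b05 b12 b13 b14 b15 b23 b24 b25 b34 b35 b45).beq 10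

def cnt7 (b01 b02 b03 b04 b05 b06 b12 b13 b14 b15 b16 b23 b24 b25 b26 b34 b35 b36 b45 b46 b56 : Bool) : ℕ :=
  (P6 b12 b13 b14 b15 b16 b23 b24 b25 b26 b34 b35 b36 b45 b46 b56).toNat
  + (P6 b02 b03 b04 b05 b06 b23 b24 b25 b26 b34 b35 b36 b45 b46 b56).toNat
  + (P6 b01 b03 b04 b05 b06 b13 b14 b15 b16 b34 b35 b36 b45 b46 b56).toNat
  + (P6 b01 b02 b04 b05 b06 b12 b14 b15 b16 b24 b25 b26 b45 b46 b56).toNat
  + (P6 b01 b02 b03 b05 b06 b12 b13 b15 b16 b23 b25 b26 b35 b36 b56).toNat
  + (P6 b01 b02 b03 b04 b06 b12 b13 b14 b16 b23 b24 b26 b34 b36 b46).toNat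
  + (P6 b01 b02 b03 b04 b05 b12 b13 b14 b15 b23 b24 b25 b34 b35 b45).toNat

def ok7 (n : ℕ) : Bool := n.beq 0 || n.beq 2

set_option maxRecDepth 100000 in
theorem chk7 : ∀ b12 b13 b14 b15 b16 b23 b24 b25 b26 b34 b35 b36 b45 b46 b56 : Bool,
    ok7 (cnt7 true true true true true true b12 b13 b14 b15 b16 b23 b24 b25 b26 b34 b35 b36 b45 b46 b56) = true := by
  decide +kernel

theorem beqT (a b : ℕ) : (a.beq b = true) ↔ a = b := by
  rw [Nat.beq_eq]

theorem x3_switch (a b c u v w x y z : Bool) :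
    x3 (xor a (xor u v)) (xor b (xor w x)) (xor c (xor y z)) =
      xor (x3 a b c) (xor u (xor v (xor w (xor x (xor y z))))) := by
  cases a <;> cases b <;> cases c <;> cases u <;> cases v <;> cases w <;> cases x <;> cases y <;>
    cases z <;> rfl

theorem P6_switch (b01 b02 b03 b04 b05 b12 b13 b14 b15 b23 b24 b25 b34 b35 b45 w0 w1 w2 w3 w4 w5 : Bool) :
    P6 (xor b01 (xor w0 w1)) (xor b02 (xor w0 w2)) (xor b03 (xor w0 w3)) (xor b04 (xor w0 w4)) (xor b05 (xor w0 w5)) (xor b12 (xor w1 w2)) (xor b13 (xor w1 w3)) (xor b14 (xor w1 w4)) (xor b15 (xor w1 w5)) (xor b23 (xor w2 w3)) (xor b24 (xor w2 w4)) (xor b25 (xor w2 w5)) (xor b34 (xor w3 w4)) (xor b35 (xor w3 w5)) (xor b45 (xor w4 w5)) = P6 b01 b02 b03 b04 b05 b12 b13 b14 b15 b23 b24 b25 b34 b35 b45 := by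
  have hW : ∀ W : Bool, W = xor w0 (xor w1 (xor w2 (xor w3 (xor w4 w5)))) →
      (x3 (xor b01 (xor w0 w1)) (xor b23 (xor w2 w3)) (xor b45 (xor w4 w5)) = xor (x3 b01 b23 b45) W) ∧
      (x3 (xor b01 (xor w0 w1)) (xor b24 (xor w2 w4)) (xor b35 (xor w3 w5)) = xor (x3 b01 b24 b35) W) ∧
      (x3 (xor b01 (xor w0 w1)) (xor b25 (xor w2 w5)) (xor b34 (xor w3 w4)) = xor (x3 b01 b25 b34) W) ∧
      (x3 (xor b02 (xor w0 w2)) (xor b13 (xor w1 w3)) (xor b45 (xor w4 w5)) = xor (x3 b02 b13 b45) W) ∧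
      (x3 (xor b02 (xor w0 w2)) (xor b14 (xor w1 w4)) (xor b35 (xor w3 w5)) = xor (x3 b02 b14 b35) W) ∧
      (x3 (xor b02 (xor w0 w2)) (xor b15 (xor w1 w5)) (xor b34 (xor w3 w4)) = xor (x3 b02 b15 b34) W) ∧
      (x3 (xor b03 (xor w0 w3)) (xor b12 (xor w1 w2)) (xor b45 (xor w4 w5)) = xor (x3 b03 b12 b45) W) ∧
      (x3 (xor b03 (xor w0 w3)) (xor b14 (xor w1 w4)) (xor b25 (xor w2 w5)) = xor (x3 b03 b14 b25) W) ∧
      (x3 (xor b03 (xor w0 w3)) (xor b15 (xor w1 w5)) (xor b24 (xor w2 w4)) = xor (x3 b03 b15 b24) W) ∧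
      (x3 (xor b04 (xor w0 w4)) (xor b12 (xor w1 w2)) (xor b35 (xor w3 w5)) = xor (x3 b04 b12 b35) W) ∧
      (x3 (xor b04 (xor w0 w4)) (xor b13 (xor w1 w3)) (xor b25 (xor w2 w5)) = xor (x3 b04 b13 b25) W) ∧
      (x3 (xor b04 (xor w0 w4)) (xor b15 (xor w1 w5)) (xor b23 (xor w2 w3)) = xor (x3 b04 b15 b23) W) ∧
      (x3 (xor b05 (xor w0 w5)) (xor b12 (xor w1 w2)) (xor b34 (xor w3 w4)) = xor (x3 b05 b12 b34) W) ∧
      (x3 (xor b05 (xor w0 w5)) (xor b13 (xor w1 w3)) (xor b24 (xor w2 w4)) = xor (x3 b05 b13 b24) W) ∧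
      (x3 (xor b05 (xor w0 w5)) (xor b14 (xor w1 w4)) (xor b23 (xor w2 w3)) = xor (x3 b05 b14 b23) W) := by
    intro W hW
    subst hW
    refine ⟨?_, ?_, ?_, ?_, ?_, ?_, ?_, ?_, ?_, ?_, ?_, ?_, ?_, ?_, ?_⟩ <;>
      rw [x3_switch] <;>
      (cases w0 <;> cases w1 <;> cases w2 <;> cases w3 <;> cases w4 <;> cases w5 <;> rfl)
  obtain ⟨h1, h2, h3, h4, h5, h6, h7, h8, h9, h10, h11, h12, h13, h14, h15⟩ := hW _ rfl
  unfold P6 neg6
  rw [h1, h2, h3, h4, h5, h6, h7, h8, h9, h10, h11, h12, h13, h14, h15]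
  generalize x3 b01 b23 b45 = T1
  generalize x3 b01 b24 b35 = T2
  generalize x3 b01 b25 b34 = T3
  generalize x3 b02 b13 b45 = T4
  generalize x3 b02 b14 b35 = T5
  generalize x3 b02 b15 b34 = T6
  generalize x3 b03 b12 b45 = T7
  generalize x3 b03 b14 b25 = T8
  generalize x3 b03 b15 b24 = T9
  generalize x3 b04 b12 b35 = T10
  generalize x3 b04 b13 b25 = T11
  generalize x3 b04 b15 b23 = T12
  generalize x3 b05 b12 b34 = T13
  generalize x3 b05 b13 b24 = T14
  generalize x3 b05 b14 b23 = T15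
  generalize xor w0 (xor w1 (xor w2 (xor w3 (xor w4 w5)))) = W
  cases W
  · simp only [Bool.xor_false]
  · have hn : ∀ T : Bool, (xor T true).toNat = 1 - T.toNat := by decide
    have hn2 : ∀ T : Bool, (!(xor T true)).toNat = 1 - (!T).toNat := by decide
    have hle : ∀ T : Bool, T.toNat ≤ 1 := by decide
    simp only [hn, hn2]
    have q1 := hle T1
    generalize (T1).toNat = n1 at *
    have q2 := hle (!T2)
    generalize ((!T2)).toNat = n2 at *
    have q3 := hle T3
    generalize (T3).toNat = n3 at *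
    have q4 := hle (!T4)
    generalize ((!T4)).toNat = n4 at *
    have q5 := hle T5
    generalize (T5).toNat = n5 at *
    have q6 := hle (!T6)
    generalize ((!T6)).toNat = n6 at *
    have q7 := hle T7
    generalize (T7).toNat = n7 at *
    have q8 := hle (!T8)
    generalize ((!T8)).toNat = n8 at *
    have q9 := hle T9
    generalize (T9).toNat = n9 at *
    have q10 := hle (!T10)
    generalize ((!T10)).toNat = n10 at *
    have q11 := hle T11
    generalize (T11).toNat = n11 at *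
    have q12 := hle (!T12)
    generalize ((!T12)).toNat = n12 at *
    have q13 := hle T13
    generalize (T13).toNat = n13 at *
    have q14 := hle (!T14)
    generalize ((!T14)).toNat = n14 at *
    have q15 := hle T15
    generalize (T15).toNat = n15 at *
    rw [Bool.eq_iff_iff]
    simp only [Bool.or_eq_true, beqT]
    omega

/-- The test applied to a sign function on six points. -/
def Q6 (g : Fin 6 → Fin 6 → Bool) : Bool :=
  P6 (g 0 1) (g 0 2) (g 0 3) (g 0 4) (g 0 5) (g 1 2) (g 1 3) (g 1 4) (g 1 5) (g 2 3) (g 2 4) (g 2 5) (g 3 4) (g 3 5) (g 4 5)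

theorem Q6_switch (g : Fin 6 → Fin 6 → Bool) (w : Fin 6 → Bool) :
    Q6 (fun i j => xor (g i j) (xor (w i) (w j))) = Q6 g := by
  unfold Q6
  exact P6_switch _ _ _ _ _ _ _ _ _ _ _ _ _ _ _ _ _ _ _ _ _

theorem cnt_eq (g : Fin 7 → Fin 7 → Bool) :
    (∑ t : Fin 7, (Q6 (fun i j => g (t.succAbove i) (t.succAbove j))).toNat) =
      cnt7 (g 0 1) (g 0 2) (g 0 3) (g 0 4) (g 0 5) (g 0 6) (g 1 2) (g 1 3) (g 1 4) (g 1 5) (g 1 6) (g 2 3) (g 2 4) (g 2 5) (g 2 6) (g 3 4) (g 3 5) (g 3 6) (g 4 5) (g 4 6) (g 5 6) := by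
  rw [Fin.sum_univ_seven]
  rfl

theorem cnt_ok (g : Fin 7 → Fin 7 → Bool) :
    (∑ t : Fin 7, (Q6 (fun i j => g (t.succAbove i) (t.succAbove j))).toNat) = 0 ∨
    (∑ t : Fin 7, (Q6 (fun i j => g (t.succAbove i) (t.succAbove j))).toNat) = 2 := by
  set w : Fin 7 → Bool := fun j => if j = 0 then false else !(g 0 j) with hw
  set g' : Fin 7 → Fin 7 → Bool := fun i j => xor (g i j) (xor (w i) (w j)) with hg'
  have h1 : (∑ t : Fin 7, (Q6 (fun i j => g (t.succAbove i) (t.succAbove j))).toNat) =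
      ∑ t : Fin 7, (Q6 (fun i j => g' (t.succAbove i) (t.succAbove j))).toNat := by
    apply Finset.sum_congr rfl
    intro t _
    congr 1
    symm
    exact Q6_switch (fun i j => g (t.succAbove i) (t.succAbove j)) (fun i => w (t.succAbove i))
  rw [h1, cnt_eq]
  have h0 : ∀ j : Fin 7, j ≠ 0 → g' 0 j = true := by
    intro j hj
    simp only [hg', hw, if_neg hj, if_true]
    cases g 0 j <;> rfl
  rw [h0 1 (by decide), h0 2 (by decide), h0 3 (by decide), h0 4 (by decide), h0 5 (by decide),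
    h0 6 (by decide)]
  have := chk7 (g' 1 2) (g' 1 3) (g' 1 4) (g' 1 5) (g' 1 6) (g' 2 3) (g' 2 4) (g' 2 5) (g' 2 6) (g' 3 4) (g' 3 5) (g' 3 6) (g' 4 5) (g' 4 6) (g' 5 6)
  unfold ok7 at this
  rw [Bool.or_eq_true, beqT, beqT] at this
  exact this

/-! ### Counting sign patterns -/

def sumB (f : Bool → ℕ) : ℕ := f false + f true

theorem sum_cons (n : ℕ) (F : (Fin (n + 1) → Bool) → ℕ) :
    ∑ g : Fin (n + 1) → Bool, F g = sumB (fun b => ∑ g : Fin n → Bool, F (Fin.cons b g)) := by
  rw [← (Fin.consEquiv (fun _ : Fin (n + 1) => Bool)).sum_comp, Fintype.sum_prod_type]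
  rw [Fintype.sum_bool, sumB, add_comm]
  rfl

theorem sum_zero (F : (Fin 0 → Bool) → ℕ) : ∑ g : Fin 0 → Bool, F g = F (fun i => i.elim0) := by
  rw [Fintype.sum_unique]
  exact congrArg F (Subsingleton.elim _ _)

set_option maxRecDepth 100000 in
theorem count_raw : (sumB fun c0 => sumB fun c1 => sumB fun c2 => sumB fun c3 => sumB fun c4 => sumB fun c5 => sumB fun c6 => sumB fun c7 => sumB fun c8 => sumB fun c9 => sumB fun c10 => sumB fun c11 => sumB fun c12 => sumB fun c13 => sumB fun c14 => (P6 c0 c1 c2 c3 c4 c5 c6 c7 c8 c9 c10 c11 c12 c13 c14).toNat) = 4608 := by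
  decide +kernel

theorem count_P6 :
    (univ.filter (fun g : Fin 15 → Bool => P6 (g 0) (g 1) (g 2) (g 3) (g 4) (g 5) (g 6) (g 7) (g 8) (g 9) (g 10) (g 11) (g 12) (g 13) (g 14) = true)).card = 4608 := by
  rw [Finset.card_filter]
  have h1 : ∀ b : Bool, (if b = true then 1 else 0) = b.toNat := by decide
  simp only [h1]
  rw [← count_raw]
  rw [sum_cons]
  refine congrArg sumB (funext fun c0 => ?_)
  rw [sum_cons]
  refine congrArg sumB (funext fun c1 => ?_)
  rw [sum_cons]
  refine congrArg sumB (funext fun c2 => ?_)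
  rw [sum_cons]
  refine congrArg sumB (funext fun c3 => ?_)
  rw [sum_cons]
  refine congrArg sumB (funext fun c4 => ?_)
  rw [sum_cons]
  refine congrArg sumB (funext fun c5 => ?_)
  rw [sum_cons]
  refine congrArg sumB (funext fun c6 => ?_)
  rw [sum_cons]
  refine congrArg sumB (funext fun c7 => ?_)
  rw [sum_cons]
  refine congrArg sumB (funext fun c8 => ?_)
  rw [sum_cons]
  refine congrArg sumB (funext fun c9 => ?_)
  rw [sum_cons]
  refine congrArg sumB (funext fun c10 => ?_)
  rw [sum_cons]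
  refine congrArg sumB (funext fun c11 => ?_)
  rw [sum_cons]
  refine congrArg sumB (funext fun c12 => ?_)
  rw [sum_cons]
  refine congrArg sumB (funext fun c13 => ?_)
  rw [sum_cons]
  refine congrArg sumB (funext fun c14 => ?_)
  rw [sum_zero]
  rfl

/-- first and second coordinate of the fifteen pairs -/
def pa : Fin 15 → Fin 6 := ![0, 0, 0, 0, 0, 1, 1, 1, 1, 2, 2, 2, 3, 3, 4]
def pb : Fin 15 → Fin 6 := ![1, 2, 3, 4, 5, 2, 3, 4, 5, 3, 4, 5, 4, 5, 5]

theorem pab_inj : Function.Injective (fun t : Fin 15 => (pa t, pb t)) := by decide +kernel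

/-- The sign test applied to the six points `f 0, ..., f 5`. -/
def PP {n : ℕ} (s : Fin n × Fin n → Bool) (f : Fin 6 → Fin n) : Bool :=
  Q6 (fun i j => s (f i, f j))

open Classical in
/-- The family attached to a sign function. -/
noncomputable def tourFam (n : ℕ) (s : Fin n × Fin n → Bool) : Finset (Finset (Fin n)) :=
  ((univ : Finset (Fin n)).powersetCard 6).filter
    (fun E => ∃ f : Fin 6 → Fin n, StrictMono f ∧ univ.image f = E ∧ PP s f = true)

theorem mem_tourFam {n : ℕ} {s : Fin n × Fin n → Bool} {f : Fin 6 → Fin n} (hf : StrictMono f) :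
    univ.image f ∈ tourFam n s ↔ PP s f = true := by
  classical
  unfold tourFam
  rw [Finset.mem_filter]
  constructor
  · rintro ⟨_, f', hf', he, hP⟩
    have : f' = f := by
      have h1 : Set.range f' = Set.range f := by
        have := congrArg (fun T : Finset (Fin n) => (T : Set (Fin n))) he
        simpa using this
      exact (StrictMono.range_inj hf' hf).1 h1
    rw [← this]; exact hP
  · intro h
    refine ⟨?_, f, hf, rfl, h⟩
    rw [Finset.mem_powersetCard]
    refine ⟨Finset.subset_univ _, ?_⟩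
    rw [Finset.card_image_of_injective _ hf.injective]; simp

theorem tour_admissible (n : ℕ) (s : Fin n × Fin n → Bool) : Admissible n 6 (tourFam n s) := by
  classical
  have hk : ∀ E ∈ tourFam n s, E.card = 6 := by
    intro E hE
    unfold tourFam at hE
    rw [Finset.mem_filter, Finset.mem_powersetCard] at hE
    exact hE.1.2
  refine ⟨hk, fun S hS => ?_⟩
  rw [filter_card hk hS]
  set e : Fin 7 → Fin n := ⇑(S.orderEmbOfFin hS) with he
  have hmono : StrictMono e := (S.orderEmbOfFin hS).strictMono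
  have hrange : ∀ x, x ∈ S ↔ ∃ t, e t = x := by
    intro x
    have := Finset.range_orderEmbOfFin S hS
    constructor
    · intro hx
      have : x ∈ Set.range (S.orderEmbOfFin hS) := by rw [this]; exact_mod_cast hx
      exact this
    · rintro ⟨t, rfl⟩
      exact Finset.orderEmbOfFin_mem S hS t
  have her : ∀ t : Fin 7, S.erase (e t) = univ.image (fun i => e (t.succAbove i)) := by
    intro t
    ext x
    rw [Finset.mem_erase, hrange, Finset.mem_image]
    constructor
    · rintro ⟨hne, u, rfl⟩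
      have hut : u ≠ t := fun h => hne (by rw [h])
      obtain ⟨i, hi⟩ := Fin.exists_succAbove_eq hut
      exact ⟨i, Finset.mem_univ _, by rw [hi]⟩
    · rintro ⟨i, _, rfl⟩
      refine ⟨?_, _, rfl⟩
      intro h
      exact Fin.succAbove_ne t i (hmono.injective h)
  have hmem : ∀ t : Fin 7, (S.erase (e t) ∈ tourFam n s ↔
      Q6 (fun i j => (fun a b => s (e a, e b)) (t.succAbove i) (t.succAbove j)) = true) := by
    intro t
    rw [her t]
    rw [mem_tourFam (f := fun i => e (t.succAbove i)) (hmono.comp (Fin.strictMono_succAbove t))]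
    rfl
  have hcard : (S.filter (fun x => S.erase x ∈ tourFam n s)).card =
      ∑ t : Fin 7, (Q6 (fun i j => (fun a b => s (e a, e b)) (t.succAbove i) (t.succAbove j))).toNat := by
    have h2 : S.filter (fun x => S.erase x ∈ tourFam n s) =
        (univ.filter (fun t : Fin 7 => Q6 (fun i j => (fun a b => s (e a, e b)) (t.succAbove i) (t.succAbove j)) = true)).image e := by
      ext x
      simp only [Finset.mem_filter, Finset.mem_image, Finset.mem_univ, true_and]
      constructor
      · rintro ⟨hx, hx2⟩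
        obtain ⟨t, rfl⟩ := (hrange x).1 hx
        exact ⟨t, (hmem t).1 hx2, rfl⟩
      · rintro ⟨t, ht, rfl⟩
        exact ⟨(hrange _).2 ⟨t, rfl⟩, (hmem t).2 ht⟩
    rw [h2, Finset.card_image_of_injective _ hmono.injective, Finset.card_filter]
    apply Finset.sum_congr rfl
    intro t _
    cases Q6 (fun i j => (fun a b => s (e a, e b)) (t.succAbove i) (t.succAbove j)) <;> rfl
  rw [hcard]
  exact cnt_ok (fun a b => s (e a, e b))

theorem PP_count {n : ℕ} (f : Fin 6 → Fin n) (hf : Function.Injective f) :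
    (univ.filter (fun s : Fin n × Fin n → Bool => PP s f = true)).card * 2 ^ 15
      = 4608 * 2 ^ (n * n) := by
  classical
  have hinj : Function.Injective (fun t : Fin 15 => (f (pa t), f (pb t))) := by
    intro t u htu
    simp only [Prod.mk.injEq] at htu
    apply pab_inj
    simp only [Prod.mk.injEq]
    exact ⟨hf htu.1, hf htu.2⟩
  have h := restrict_count (α := Fin n × Fin n) (β := Bool) (ι := Fin 15)
    (fun t : Fin 15 => (f (pa t), f (pb t))) hinj
    (fun g => P6 (g 0) (g 1) (g 2) (g 3) (g 4) (g 5) (g 6) (g 7) (g 8) (g 9) (g 10) (g 11) (g 12) (g 13) (g 14) = true)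
  rw [count_P6] at h
  have e0 : (univ.filter (fun s : Fin n × Fin n → Bool => PP s f = true)) =
      univ.filter (fun s : Fin n × Fin n → Bool =>
        (fun g : Fin 15 → Bool => P6 (g 0) (g 1) (g 2) (g 3) (g 4) (g 5) (g 6) (g 7) (g 8) (g 9) (g 10) (g 11) (g 12) (g 13) (g 14) = true)
          (s ∘ fun t : Fin 15 => (f (pa t), f (pb t)))) :=
    Finset.filter_congr (fun s _ => Iff.rfl)
  rw [e0]
  simp only [Fintype.card_bool, Fintype.card_fin, Fintype.card_prod] at h
  exact h

theorem tour_lower (n : ℕ) : 9 * n.choose 6 ≤ 64 * m n 6 := by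
  classical
  have t1 : ∑ s : Fin n × Fin n → Bool, (tourFam n s).card ≤ 2 ^ (n * n) * m n 6 := by
    calc ∑ s : Fin n × Fin n → Bool, (tourFam n s).card
        ≤ ∑ s : Fin n × Fin n → Bool, m n 6 := by
          apply Finset.sum_le_sum; intro s _
          exact le_m (tour_admissible n s)
      _ = 2 ^ (n * n) * m n 6 := by simp
  have t2 : ∑ s : Fin n × Fin n → Bool, (tourFam n s).card
      = ∑ E ∈ (univ : Finset (Fin n)).powersetCard 6,
        (univ.filter (fun s : Fin n × Fin n → Bool => E ∈ tourFam n s)).card := by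
    have h1 : ∀ s : Fin n × Fin n → Bool, (tourFam n s).card =
        ∑ E ∈ (univ : Finset (Fin n)).powersetCard 6, if E ∈ tourFam n s then 1 else 0 := by
      intro s
      rw [← Finset.card_filter]
      congr 1
      ext E
      unfold tourFam
      simp only [Finset.mem_filter]
      tauto
    rw [Finset.sum_congr rfl (fun s _ => h1 s), Finset.sum_comm]
    apply Finset.sum_congr rfl
    intro E _
    rw [← Finset.card_filter]
  have t3 : (∑ E ∈ (univ : Finset (Fin n)).powersetCard 6,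
        (univ.filter (fun s : Fin n × Fin n → Bool => E ∈ tourFam n s)).card) * 2 ^ 15
      = n.choose 6 * (4608 * 2 ^ (n * n)) := by
    rw [Finset.sum_mul]
    have : ∀ E ∈ (univ : Finset (Fin n)).powersetCard 6,
        (univ.filter (fun s : Fin n × Fin n → Bool => E ∈ tourFam n s)).card * 2 ^ 15
          = 4608 * 2 ^ (n * n) := by
      intro E hE
      have hEk : E.card = 6 := (Finset.mem_powersetCard.1 hE).2
      set f : Fin 6 → Fin n := ⇑(E.orderEmbOfFin hEk) with hf
      have hmono : StrictMono f := (E.orderEmbOfFin hEk).strictMono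
      have himg : univ.image f = E := by
        rw [← Finset.coe_inj, Finset.coe_image, Finset.coe_univ, Set.image_univ]
        exact Finset.range_orderEmbOfFin E hEk
      have e1 : (univ.filter (fun s : Fin n × Fin n → Bool => E ∈ tourFam n s)) =
          univ.filter (fun s : Fin n × Fin n → Bool => PP s f = true) := by
        ext s
        simp only [Finset.mem_filter, Finset.mem_univ, true_and]
        conv_lhs => rw [← himg]
        exact mem_tourFam hmono
      rw [e1]
      exact PP_count f hmono.injective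
    rw [Finset.sum_congr rfl this]
    simp
  rw [t2] at t1
  have t4 := Nat.mul_le_mul_right (2 ^ 15) t1
  rw [t3] at t4
  have hp : 0 < 2 ^ (n * n) := by positivity
  have h5 : 2 ^ (n * n) * (4608 * n.choose 6) ≤ 2 ^ (n * n) * (32768 * m n 6) := by
    calc 2 ^ (n * n) * (4608 * n.choose 6) = n.choose 6 * (4608 * 2 ^ (n * n)) := by ring
      _ ≤ 2 ^ (n * n) * m n 6 * 2 ^ 15 := t4
      _ = 2 ^ (n * n) * (32768 * m n 6) := by ring
  have h6 := Nat.le_of_mul_le_mul_left h5 hp
  omega

/-- For every `n`: `(9/64) C(n,6) ≤ m(n,6)` and `36 m(n,6) ≤ n C(n,5)`. -/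
theorem result : ∀ n : ℕ, 9 * n.choose 6 ≤ 64 * m n 6 ∧ 36 * m n 6 ≤ n * n.choose 5 :=
  fun n => ⟨tour_lower n, upper n 6⟩

end Pool.Agent.Results.MP_07f90a_co.SixUniform
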